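import Pool.Agent.K6.H85.PV.Main
import Pool.Agent.N162.GQ.Facts
import Pool.Agent.N162.GQ.Factor

/-!
Zero-cycles with null trace on the varieties dominated by the product of several varieties and a
curve.
-/

set_option autoImplicit false
set_option linter.overlappingInstances false
set_option linter.unusedSectionVars false
set_option linter.unusedVariables false
set_option maxHeartbeats 4000000
set_option synthInstance.maxHeartbeats 400000

open FF Polynomial Pool.Agent.N162.BC Pool.Agent.N162.PR Pool.Agent.N162.GQ IntermediateField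
open Pool.Agent.N145.SX

namespace Pool.Agent.K6.H85.PV

section

variable {K K' Ω : Type} [Field K] [Algebra ℂ K] [Field K'] [Algebra ℂ K'] [Algebra K K']
  [IsScalarTower ℂ K K'] [Field Ω] [Algebra ℂ Ω] {k : ℕ}

/-- The number of the different restrictions to `F i` of the embeddings `σ` of `K'` over the points of
`c` which have the same restrictions to the fields `F j`, `j < i`, as `τ`. -/
noncomputable def numNext (K : Type) {K' Ω : Type} [Field K] [Algebra ℂ K] [Field K']
    [Algebra ℂ K'] [Algebra K K'] [IsScalarTower ℂ K K'] [Field Ω] [Algebra ℂ Ω] {k : ℕ}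
    (F : Fin (k + 1) → IntermediateField ℂ K') (c : (K →ₐ[ℂ] Ω) →₀ ℤ) (τ : K' →ₐ[ℂ] Ω)
    (i : Fin (k + 1)) : ℕ :=
  Set.ncard {u : F i →ₐ[ℂ] Ω | ∃ σ : K' →ₐ[ℂ] Ω,
    c (σ.comp (IsScalarTower.toAlgHom ℂ K K')) ≠ 0 ∧
    (∀ j, j < i → ∀ a ∈ F j, σ a = τ a) ∧ u = σ.comp (F i).val}

variable [Algebra.IsAlgebraic K K'] [IsAlgClosed Ω]
  {F : Fin (k + 1) → IntermediateField ℂ K'} {n g : Fin (k + 1) → ℕ}

theorem main_prod (hessF : ∀ i, Algebra.EssFiniteType ℂ (F i))
    (htr : ∀ i, Algebra.trdeg ℂ (F i) = n i)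
    (hsepF : ∀ i, SepF (F i) (n i) (fun _ => False) (g i)) (hlast : n (Fin.last k) = 1)
    (hsup : ⨆ i, F i = ⊤) (hK : Algebra.trdeg ℂ K = (∑ i, n i : ℕ))
    (hΩ : Algebra.trdeg ℂ Ω = (∑ i, n i : ℕ)) {c : (K →ₐ[ℂ] Ω) →₀ ℤ}
    (hc : NullTrace (∑ i, n i) c)
    (hd : (∀ i, i < Fin.last k → ∀ τ : K' →ₐ[ℂ] Ω,
        c (τ.comp (IsScalarTower.toAlgHom ℂ K K')) ≠ 0 → numNext K F c τ i < g i) ∨
      ((∀ i j, i ≠ j → Module.finrank K K' * c.support.card + 3 ≤ g i + g j) ∧
        ∀ i, n i ≠ 1 → Module.finrank K K' * c.support.card < g i)) :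
    Module.finrank K K' • c ∈ Rat K Ω := by
  classical
  have hessK' : Algebra.EssFiniteType ℂ K' := by
    rw [← IntermediateField.fg_top_iff, ← hsup]
    exact IntermediateField.fg_iSup fun i => IntermediateField.essFiniteType_iff.1 (hessF i)
  have hfin : FiniteDimensional K K' := finite_of_alg
  have hessK : Algebra.EssFiniteType ℂ K := Pool.Agent.TH466.QG.ess_below (K := K')
  have hK' : Algebra.trdeg ℂ K' = (∑ i, n i : ℕ) := by
    have h1 := trdeg_add_eq ℂ K (A := K')
    rw [_root_.trdeg_eq_zero_iff.2 (inferInstance : Algebra.IsAlgebraic K K'), add_zero, hK] at h1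
    exact h1.symm
  obtain ⟨c', hc'1, hcard, hsum, hmap⟩ := exists_lift_cycle (K' := K') c
  have hnull := null_lift hK hc hc'1 hsum
  rw [← hmap]
  refine rat_push ?_
  rcases hd with hd | ⟨hd1, hd2⟩
  · have hFF : IsFF ℂ (F (Fin.last k)) := ⟨inferInstance, by rw [htr, hlast, Nat.cast_one]⟩
    have hsum : ∑ i, n i = ∑ i : Fin k, n i.castSucc + 1 := by
      rw [Fin.sum_univ_castSucc, hlast]
    choose x ex hx hex using fun i : Fin k =>
      Pool.Agent.Y172.exists_crd (k := ℂ) (K := F i.castSucc) (htr i.castSucc)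
    rw [hsum] at hK' hΩ hnull
    refine nested (F := F) (m := fun i => n i.castSucc) hsup (fun i => htr _) hK' hΩ hx
      (g := fun i => g i.castSucc) (fun i => hsepF _ _ (hx i)) hnull ?_
    intro i τ hτ
    rw [Finsupp.mem_support_iff, hc'1] at hτ
    refine lt_of_le_of_lt (le_of_eq ?_) (hd i.castSucc (Fin.castSucc_lt_last i) τ hτ)
    unfold numNext
    congr 1
    ext u
    constructor
    · rintro ⟨σ, hσ, h1, rfl⟩
      rw [Finsupp.mem_support_iff, hc'1] at hσ
      exact ⟨σ, hσ, fun j hj a ha => DFunLike.congr_fun (h1 j hj) (⟨a, ha⟩ : F j), rfl⟩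
    · rintro ⟨σ, hσ, h1, rfl⟩
      refine ⟨σ, ?_, fun j hj => AlgHom.ext fun a => h1 j hj _ a.2, rfl⟩
      rw [Finsupp.mem_support_iff, hc'1]
      exact hσ
  · refine few_pts htr hsepF hsup hK' hΩ hnull hlast ?_ ?_
    · intro i j hij
      rw [hcard]
      exact hd1 i j hij
    · intro i hi
      rw [hcard]
      exact hd2 i hi

end

end Pool.Agent.K6.H85.PV
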