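import Pool.Agent.Y172.Alg
import Pool.Agent.N162.PR.Prod

/-!
The function fields of a variety and of a curve are linearly disjoint in the function field of the
product.
-/

set_option autoImplicit false
set_option linter.overlappingInstances false
set_option linter.unusedSectionVars false
set_option maxHeartbeats 4000000
set_option synthInstance.maxHeartbeats 400000

open FF Pool.Agent.W603.LV Pool.Agent.W602.GT Pool.Agent.Y172 Pool.Agent.N162.PR
open scoped TensorProduct

namespace Pool.Agent.K6.H85.PV

section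

variable {K : Type} [Field K] [Algebra ℂ K] {m : ℕ} {E C : IntermediateField ℂ K}

/-- linear disjointness -/
theorem ld (hcl : ∀ z : K, IsAlgebraic E z → z ∈ E) [IsFF ℂ C] {x : Fin m → E}
    (hx : IsTranscendenceBasis ℂ x) {t : C} (ht : Transcendental ℂ t)
    (hz : IsTranscendenceBasis ℂ
      (Fin.snoc (α := fun _ => K) (fun j => (x j : K)) (t : K) : Fin (m + 1) → K))
    {ι : Type} (v : ι → C) (hv : LinearIndependent ℂ v) :
    LinearIndependent E (fun i => (v i : K)) := by
  classical
  obtain ⟨z, hzdef⟩ : ∃ z : Fin (m + 1) → K,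
    z = Fin.snoc (α := fun _ => K) (fun j => (x j : K)) (t : K) := ⟨_, rfl⟩
  rw [← hzdef] at hz
  have hzc : ∀ i : Fin m, z i.castSucc = (x i : K) := fun i => by rw [hzdef, Fin.snoc_castSucc]
  have hzl : z (Fin.last m) = (t : K) := by rw [hzdef, Fin.snoc_last]
  choose D hD using fun i : Fin (m + 1) => Pool.Agent.W602.GT.exists_der z hz
    fun j => if i = j then (1 : K) else 0
  -- the first derivations kill `C`
  have hCt : ∀ y : C, IsAlgebraic (IntermediateField.adjoin ℂ {(t : K)}) (y : K) := by
    intro y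
    have h1 : IsAlgebraic (IntermediateField.adjoin ℂ {t}) y := (IsFF.isAlgebraic ht).isAlgebraic y
    have hle : (IntermediateField.adjoin ℂ {t}).map C.val ≤
        IntermediateField.adjoin ℂ {(t : K)} := by
      rw [IntermediateField.adjoin_map, Set.image_singleton]
      exact le_rfl
    let f : IntermediateField.adjoin ℂ {t} →+* IntermediateField.adjoin ℂ {(t : K)} :=
      { toFun := fun w => ⟨((w : C) : K), hle ⟨w, w.2, rfl⟩⟩
        map_one' := rfl
        map_mul' := fun a b => rfl
        map_zero' := rfl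
        map_add' := fun a b => rfl }
    exact h1.ringHom_of_comp_eq f (C.val : C →+* K) f.injective (by ext w; rfl)
  have hkC : ∀ (j : Fin m) (y : C), D j.castSucc (y : K) = 0 := by
    intro j y
    refine kills_acl (k := ℂ) (S := {(t : K)}) ?_ _ (mem_acl.2 (hCt y))
    rintro _ rfl
    rw [← hzl, hD, if_neg (Fin.castSucc_lt_last j).ne]
  -- elements of `E` are algebraic over the coordinates
  have hEx : ∀ y ∈ E, y ∈ acl ℂ (Set.range fun i => (x i : K)) := by
    intro y hy
    rw [mem_acl]
    have h1 : Algebra.IsAlgebraic (IntermediateField.adjoin ℂ (Set.range x)) E :=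
      hx.isAlgebraic_field
    have h2 := h1.isAlgebraic (⟨y, hy⟩ : E)
    have hle : (IntermediateField.adjoin ℂ (Set.range x)).map E.val ≤
        IntermediateField.adjoin ℂ (Set.range fun i => (x i : K)) := by
      rw [IntermediateField.adjoin_map, ← Set.range_comp]
      exact le_rfl
    let f : IntermediateField.adjoin ℂ (Set.range x) →+*
        IntermediateField.adjoin ℂ (Set.range fun i => (x i : K)) :=
      { toFun := fun w => ⟨((w : E) : K), hle ⟨w, w.2, rfl⟩⟩
        map_one' := rfl
        map_mul' := fun a b => rfl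
        map_zero' := rfl
        map_add' := fun a b => rfl }
    exact h2.ringHom_of_comp_eq f (E.val : E →+* K) f.injective (by ext w; rfl)
  have hxE : acl ℂ (Set.range fun i => (x i : K)) ≤ E := by
    refine acl_le hcl ?_
    rintro _ ⟨i, rfl⟩
    exact (x i).2
  have hsE : ∀ (j : Fin m) (y : K), y ∈ E → D j.castSucc y ∈ E := by
    intro j y hy
    refine hxE (stab_acl (D := D j.castSucc) ?_ _ (hEx y hy))
    rintro _ ⟨i, rfl⟩
    have h1 := hD j.castSucc i.castSucc
    rw [hzc] at h1
    change D j.castSucc (x i : K) ∈ _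
    rw [h1]
    split_ifs
    · exact one_mem _
    · exact zero_mem _
  have hlE : ∀ y : K, y ∈ E → D (Fin.last m) y = 0 := by
    intro y hy
    refine kills_acl (k := ℂ) (S := Set.range fun i => (x i : K)) ?_ _ (hEx y hy)
    rintro _ ⟨i, rfl⟩
    have h1 := hD (Fin.last m) i.castSucc
    rw [hzc, if_neg (Fin.castSucc_lt_last i).ne'] at h1
    exact h1
  -- elements of `E` which are killed are constant
  have hconst : ∀ y : K, y ∈ E → (∀ j : Fin m, D j.castSucc y = 0) →
      ∃ c : ℂ, y = algebraMap ℂ K c := by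
    intro y hy h0
    by_contra hcon
    have hcl0 : Closed (⊥ : IntermediateField ℂ K) := by
      intro w hw
      have h1 : IsAlgebraic ℂ w := by
        have h2 : Algebra.IsAlgebraic ℂ (⊥ : IntermediateField ℂ K) := inferInstance
        exact hw.restrictScalars ℂ
      obtain ⟨c, hc⟩ := Pool.Agent.W602.GT.const_of_algebraic h1
      rw [hc]
      exact IntermediateField.algebraMap_mem _ _
    have hy0 : y ∉ (⊥ : IntermediateField ℂ K) := by
      intro h1
      obtain ⟨c, hc⟩ := IntermediateField.mem_bot.1 h1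
      exact hcon ⟨c, hc.symm⟩
    obtain ⟨D0, -, hD0⟩ := exists_der_ne hcl0 hy0
    have h1 : D0 = ∑ i, D0 (z i) • D i := by
      refine Pool.Agent.W602.GT.der_ext z hz fun l => ?_
      have h2 : (∑ i, D0 (z i) • D i) (z l) = ∑ i, D0 (z i) * D i (z l) := by
        rw [← Derivation.coeFnAddMonoidHom_apply, map_sum, Finset.sum_apply]
        rfl
      rw [h2]
      simp [hD]
    have h2 : D0 y = ∑ i, D0 (z i) * D i y := by
      conv_lhs => rw [h1]
      rw [← Derivation.coeFnAddMonoidHom_apply, map_sum, Finset.sum_apply]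
      rfl
    rw [Fin.sum_univ_castSucc, hlE y hy, mul_zero, add_zero] at h2
    rw [Finset.sum_eq_zero fun i _ => by rw [h0 i, mul_zero], hD0] at h2
    exact one_ne_zero h2
  -- the relations
  rw [linearIndependent_iff']
  intro s e hrel
  obtain ⟨N, hN⟩ : ∃ N, s.card = N := ⟨_, rfl⟩
  induction N using Nat.strong_induction_on generalizing s e with
  | _ N ih =>
    by_contra hcon
    push Not at hcon
    obtain ⟨i0, hi0, he0⟩ := hcon
    obtain ⟨e', he'⟩ : ∃ e' : ι → E, ∀ i, e' i = e i / e i0 := ⟨_, fun i => rfl⟩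
    have h1 : ∑ i ∈ s, (e' i : K) * (v i : K) = 0 := by
      have h2 : ∑ i ∈ s, (e' i : K) * (v i : K) = (e i0 : K)⁻¹ * ∑ i ∈ s, e i • (v i : K) := by
        rw [Finset.mul_sum]
        refine Finset.sum_congr rfl fun i _ => ?_
        rw [he', Algebra.smul_def]
        change ((e i / e i0 : E) : K) * _ = _ * ((e i : K) * _)
        push_cast
        ring
      rw [h2, hrel, mul_zero]
    have he'0 : (e' i0 : K) = 1 := by
      rw [he', div_self he0]
      rfl
    have h2 : ∀ j : Fin m, ∀ i ∈ s, D j.castSucc (e' i : K) = 0 := by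
      intro j i hi
      by_cases hii : i = i0
      · rw [hii, he'0, Derivation.map_one_eq_zero]
      have h3 : ∑ i ∈ s.erase i0, (⟨D j.castSucc (e' i : K), hsE j _ (e' i).2⟩ : E) • (v i : K) =
          0 := by
        have h4 := congrArg (D j.castSucc) h1
        rw [map_zero, map_sum] at h4
        rw [← Finset.add_sum_erase s _ hi0, he'0, one_mul, hkC, zero_add] at h4
        rw [← h4]
        refine Finset.sum_congr rfl fun l _ => ?_
        rw [Derivation.leibniz, hkC, smul_zero, zero_add, smul_eq_mul, Algebra.smul_def]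
        change D j.castSucc (e' l : K) * (v l : K) = _
        rw [mul_comm]
      have h4 := ih (s.erase i0).card (by
        rw [← hN]
        exact Finset.card_erase_lt_of_mem hi0) (s.erase i0) _ h3 rfl i
        (Finset.mem_erase.2 ⟨hii, hi⟩)
      exact congrArg Subtype.val h4
    have h3 : ∀ i, ∃ c : ℂ, i ∈ s → (e' i : K) = algebraMap ℂ K c := by
      intro i
      by_cases hi : i ∈ s
      · obtain ⟨c, hc⟩ := hconst (e' i : K) (e' i).2 fun j => h2 j i hi
        exact ⟨c, fun _ => hc⟩
      · exact ⟨0, fun h => absurd h hi⟩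
    choose c hc using h3
    have h4 : ∑ i ∈ s, c i • v i = 0 := by
      apply Subtype.ext
      change ((∑ i ∈ s, c i • v i : C) : K) = 0
      rw [← h1]
      push_cast
      refine Finset.sum_congr rfl fun i hi => ?_
      rw [hc i hi, Algebra.smul_def]
    have h5 := linearIndependent_iff'.1 hv s c h4 i0 hi0
    have h6 := hc i0 hi0
    rw [h5, map_zero, he'0] at h6
    exact one_ne_zero h6

end

section

variable {F₁ F₂ K : Type} [Field F₁] [Field F₂] [Field K] [Algebra ℂ F₁] [Algebra ℂ F₂]
  [Algebra ℂ K] [Algebra F₁ K] [Algebra F₂ K] [IsScalarTower ℂ F₁ K] [IsScalarTower ℂ F₂ K]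

/-- the function field of the product, from linear disjointness -/
theorem isProd_of_ld (LD : ∀ {ι : Type} (v : ι → F₂), LinearIndependent ℂ v →
      LinearIndependent F₁ (fun i => algebraMap F₂ K (v i)))
    (hgen : ∀ S : Subfield K, (∀ a, algebraMap F₁ K a ∈ S) → (∀ b, algebraMap F₂ K b ∈ S) →
      ∀ f, f ∈ S) : IsProd F₁ F₂ K := by
  let ψ : F₁ ⊗[ℂ] F₂ →ₐ[ℂ] K := Algebra.TensorProduct.lift (IsScalarTower.toAlgHom ℂ F₁ K)
    (IsScalarTower.toAlgHom ℂ F₂ K) (fun _ _ => Commute.all _ _)
  have hψ : ∀ (a : F₁) (b : F₂), ψ (a ⊗ₜ b) = algebraMap F₁ K a * algebraMap F₂ K b := by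
    intro a b
    simp [ψ]
  have hinj := tensor_inj LD ψ hψ
  refine ⟨ψ, hψ, hinj, fun f => ?_⟩
  let S : Subfield K :=
    { carrier := {f | ∃ p q, ψ q ≠ 0 ∧ f * ψ q = ψ p}
      one_mem' := ⟨1, 1, by rw [map_one]; exact one_ne_zero, by rw [map_one, mul_one]⟩
      zero_mem' := ⟨0, 1, by rw [map_one]; exact one_ne_zero, by rw [map_zero, zero_mul]⟩
      neg_mem' := by
        rintro a ⟨p, q, hq, h⟩
        refine ⟨-p, q, hq, ?_⟩
        rw [map_neg, ← h]
        ring
      mul_mem' := by
        rintro a b ⟨p, q, hq, h⟩ ⟨p', q', hq', h'⟩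
        refine ⟨p * p', q * q', ?_, ?_⟩
        · rw [map_mul]
          exact mul_ne_zero hq hq'
        · rw [map_mul, map_mul, ← h, ← h']
          ring
      add_mem' := by
        rintro a b ⟨p, q, hq, h⟩ ⟨p', q', hq', h'⟩
        refine ⟨p * q' + p' * q, q * q', ?_, ?_⟩
        · rw [map_mul]
          exact mul_ne_zero hq hq'
        · rw [map_mul, map_add, map_mul, map_mul, ← h, ← h']
          ring
      inv_mem' := by
        rintro a ⟨p, q, hq, h⟩
        by_cases ha : a = 0
        · refine ⟨0, 1, by rw [map_one]; exact one_ne_zero, ?_⟩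
          rw [ha, inv_zero, zero_mul, map_zero]
        · refine ⟨q, p, ?_, ?_⟩
          · rw [← h]
            exact mul_ne_zero ha hq
          · rw [← h]
            field_simp }
  exact hgen S (fun a => ⟨a ⊗ₜ 1, 1, by rw [map_one]; exact one_ne_zero, by
      rw [map_one, mul_one, hψ, map_one, mul_one]⟩)
    (fun b => ⟨1 ⊗ₜ b, 1, by rw [map_one]; exact one_ne_zero, by
      rw [map_one, mul_one, hψ, map_one, one_mul]⟩) f

end

section

variable {K : Type} [Field K] [Algebra ℂ K] {m : ℕ} {E C : IntermediateField ℂ K}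

/-- the function field of the product -/
theorem isProd (hsup : E ⊔ C = ⊤) (hcl : ∀ z : K, IsAlgebraic E z → z ∈ E) [IsFF ℂ C]
    {x : Fin m → E} (hx : IsTranscendenceBasis ℂ x) {t : C} (ht : Transcendental ℂ t)
    (hz : IsTranscendenceBasis ℂ
      (Fin.snoc (α := fun _ => K) (fun j => (x j : K)) (t : K) : Fin (m + 1) → K)) :
    IsProd E C K := by
  refine isProd_of_ld (fun {ι} v hv => ld hcl hx ht hz v hv) fun S h1 h2 f => ?_
  let S' : IntermediateField ℂ K :=
    { S with
      algebraMap_mem' := fun c => h1 (algebraMap ℂ E c) }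
  have hS : E ⊔ C ≤ S' := sup_le (fun y hy => h1 ⟨y, hy⟩) (fun y hy => h2 ⟨y, hy⟩)
  exact hS (by rw [hsup]; trivial)

end

end Pool.Agent.K6.H85.PV
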