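import Pool.Agent.K6.H85.PV.Rel
import Pool.Agent.N162.GQ.Stm

/-!
Zero-cycles with null trace on the product of several varieties and a curve.
-/

set_option autoImplicit false
set_option linter.overlappingInstances false
set_option linter.unusedSectionVars false
set_option linter.unusedVariables false
set_option maxHeartbeats 4000000
set_option synthInstance.maxHeartbeats 400000

open FF Polynomial Pool.Agent.W603.LV Pool.Agent.W619.PQ Pool.Agent.N162.BC
open Pool.Agent.N162.PR IntermediateField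
open Pool.Agent.N145.SX Pool.Agent.N145.PC Pool.Agent.N145.PL
open Pool.Agent.W602.GT (Divisorial RegAt IsPluri DerReg DerLog LogAt)
open Pool.Agent.Y184.NT (trForm trForm_pluri)
open Pool.Agent.R882.LT (SecAt)
open scoped TensorProduct

namespace Pool.Agent.K6.H85.PV

section

variable {K Ω : Type} [Field K] [Algebra ℂ K] [Field Ω] [Algebra ℂ Ω] {k : ℕ}
  {F : Fin (k + 1) → IntermediateField ℂ K} {m : Fin k → ℕ}

/-- the forms on the factors -/
def HF (x : ∀ i : Fin k, Fin (m i) → F i.castSucc) (H0 : Set (F (Fin.last k)))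
    (i : Fin (k + 1)) : Set (F i) :=
  Fin.lastCases (motive := fun i => Set (F i)) H0 (fun i => HX (x i) (fun _ => False)) i

theorem HF_last (x : ∀ i : Fin k, Fin (m i) → F i.castSucc) (H0 : Set (F (Fin.last k))) :
    HF x H0 (Fin.last k) = H0 := Fin.lastCases_last

theorem HF_cast (x : ∀ i : Fin k, Fin (m i) → F i.castSucc) (H0 : Set (F (Fin.last k)))
    (i : Fin k) : HF x H0 i.castSucc = HX (x i) (fun _ => False) := Fin.lastCases_castSucc i

theorem fst_val (E : IntermediateField ℂ K) (σ : K →ₐ[ℂ] Ω) (a : E) : fst E σ a = σ (a : K) := rfl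

theorem fst_eq_iff {E : IntermediateField ℂ K} (hE : E = ⨆ i : Fin k, F i.castSucc)
    (σ τ : K →ₐ[ℂ] Ω) :
    fst E σ = fst E τ ↔ ∀ i : Fin k, fst (F i.castSucc) σ = fst (F i.castSucc) τ := by
  constructor
  · intro h i
    have hle : F i.castSucc ≤ E := by
      rw [hE]
      exact le_iSup (fun i : Fin k => F i.castSucc) i
    ext a
    have h1 := DFunLike.congr_fun h (⟨(a : K), hle a.2⟩ : E)
    exact h1
  · intro h
    have h3 : E ≤ (AlgHom.equalizer σ τ).toIntermediateField (fun x hx => by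
          change σ x⁻¹ = τ x⁻¹
          rw [map_inv₀, map_inv₀, show σ x = τ x from hx]) := by
      rw [hE]
      refine iSup_le fun i v hv => ?_
      have h1 := DFunLike.congr_fun (h i) (⟨v, hv⟩ : F i.castSucc)
      exact h1
    ext a
    exact h3 a.2

/-- the relations between the points -/
theorem rel_all [Algebra.EssFiniteType ℂ K] [∀ i, Algebra.EssFiniteType ℂ (F i)]
    [IsFF ℂ (F (Fin.last k))] (hm : ∀ i : Fin k, Algebra.trdeg ℂ (F i.castSucc) = m i) {N : ℕ}
    (hK : Algebra.trdeg ℂ K = (N + 1 : ℕ)) {x : ∀ i : Fin k, Fin (m i) → F i.castSucc}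
    (hx : ∀ i, IsTranscendenceBasis ℂ (x i))
    (hind : AlgebraicIndependent ℂ fun p : (i : Fin k) × Fin (m i) => (x p.1 p.2 : K))
    {E : IntermediateField ℂ K}
    (hE : E = ⨆ i : Fin k, F i.castSucc) (hle : ∀ i : Fin k, F i.castSucc ≤ E)
    (e : Fin N ≃ (i : Fin k) × Fin (m i)) {t : F (Fin.last k)} (ht : Transcendental ℂ t)
    (hz : IsTranscendenceBasis ℂ (zz K (zS x hle e) t))
    {c : (K →ₐ[ℂ] Ω) →₀ ℤ} (hc : NullTrace (N + 1) c) (D : Fin (N + 1) → Derivation ℂ Ω Ω)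
    (f : ∀ i, F i)
    (hf : ∀ i, f i ∈ HF x (HX (fun _ : Fin 1 => t) (fun _ => False)) i) :
    ∑ σ ∈ c.support, (c σ : Ω) * jac' (zz K (zS x hle e) t) D σ * ∏ i, fst (F i) σ (f i) = 0 := by
  classical
  have hb := basis_zS x hle e hx hind hE
  have hess : Algebra.EssFiniteType ℂ E := ess_iSup (F := fun i : Fin k => F i.castSucc) hE
  obtain ⟨q, hq1, hq2⟩ := prods psec2 k (fun i => F i.castSucc) m hm x hx hind
    (fun _ _ => False) E hE hle N e (fun i => f i.castSucc) (fun i => by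
      have := hf i.castSucc
      rwa [HF_cast] at this)
  have h1 := rel1 (trdeg_basis hb) hK hb ht hz hc D
    (BX := BdS (F := fun i : Fin k => F i.castSucc) hle (fun _ _ => False)) (by
      rintro P ⟨i, P', a, h, -⟩
      exact h) hq2 (b := f (Fin.last k)) (by
      have := hf (Fin.last k)
      rwa [HF_last] at this)
  rw [← h1]
  refine Finset.sum_congr rfl fun σ _ => ?_
  rw [hq1, map_prod, Fin.prod_univ_castSucc]
  rfl

/-- **Few coordinates, successively.** -/
theorem nested [Algebra.EssFiniteType ℂ K] [∀ i, Algebra.EssFiniteType ℂ (F i)]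
    [IsFF ℂ (F (Fin.last k))] (hsup : ⨆ i, F i = ⊤)
    (hm : ∀ i : Fin k, Algebra.trdeg ℂ (F i.castSucc) = m i)
    (hK : Algebra.trdeg ℂ K = (∑ i, m i + 1 : ℕ)) [IsAlgClosed Ω]
    (hΩ : Algebra.trdeg ℂ Ω = (∑ i, m i + 1 : ℕ))
    {x : ∀ i : Fin k, Fin (m i) → F i.castSucc}
    (hx : ∀ i, IsTranscendenceBasis ℂ (x i)) {g : Fin k → ℕ}
    (hsep : ∀ i, SepX (x i) (fun _ => False) (g i)) {c : (K →ₐ[ℂ] Ω) →₀ ℤ}
    (hc : NullTrace (∑ i, m i + 1) c)
    (hd : ∀ (i : Fin k), ∀ τ ∈ c.support, Set.ncard {u : F i.castSucc →ₐ[ℂ] Ω |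
      ∃ σ ∈ c.support, (∀ j : Fin (k + 1), j < i.castSucc → fst (F j) σ = fst (F j) τ) ∧
        u = fst (F i.castSucc) σ} < g i) : c ∈ Rat K Ω := by
  classical
  obtain ⟨N, hN⟩ : ∃ N, N = ∑ i, m i := ⟨_, rfl⟩
  obtain ⟨e⟩ : Nonempty (Fin N ≃ (i : Fin k) × Fin (m i)) := by
    rw [hN]
    exact ⟨finSigmaFinEquiv.symm⟩
  have hind := ind_all' hsup hK hx
  rw [← hN] at hK hΩ hc
  obtain ⟨E, hE⟩ : ∃ E, E = ⨆ i : Fin k, F i.castSucc := ⟨_, rfl⟩
  have hle : ∀ i : Fin k, F i.castSucc ≤ E := fun i => by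
    rw [hE]
    exact le_iSup (fun i : Fin k => F i.castSucc) i
  have hessE : Algebra.EssFiniteType ℂ E := ess_iSup (F := fun i : Fin k => F i.castSucc) hE
  have hzb := basis_zS x hle e hx hind hE
  have htrE := trdeg_basis hzb
  have hsup' : E ⊔ F (Fin.last k) = ⊤ := by
    rw [eq_top_iff, ← hsup]
    refine iSup_le fun i => ?_
    induction i using Fin.lastCases with
    | last => exact le_sup_right
    | cast i => exact (hle i).trans le_sup_left
  obtain ⟨t, ht⟩ := IsFF.exists_transcendental (k := ℂ) (K := F (Fin.last k))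
  obtain ⟨D0, hD0⟩ := exists_D ht
  obtain ⟨hna, -, hcl⟩ := pclosed K N E (F (Fin.last k)) hsup' htrE hK
  have hz := basis_zz hK hzb (hna t ht)
  have hP : IsProd E (F (Fin.last k)) K := isProd hsup' hcl hzb ht hz
  have h1 : c = ∑ u ∈ c.support.image (fst E), c.filter (fun σ => fst E σ = u) := by
    ext σ
    rw [Finset.sum_apply']
    simp only [Finsupp.filter_apply]
    rw [Finset.sum_ite_eq]
    split_ifs with h
    · rfl
    · by_contra hne
      exact h (Finset.mem_image_of_mem _ (Finsupp.mem_support_iff.2 hne))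
  rw [h1]
  refine sum_mem fun u hu => ?_
  obtain ⟨τ0, hτ0, rfl⟩ := Finset.mem_image.1 hu
  refine part_mem' hP htrE hΩ hzb ht D0 hD0 (fst E τ0) fun D b hb => ?_
  -- the relation
  obtain ⟨gg, hgg⟩ : ∃ gg : Fin (k + 1) → ℕ, gg = Fin.lastCases (motive := fun _ => ℕ) 0 g :=
    ⟨_, rfl⟩
  have hggl : gg (Fin.last k) = 0 := by
    rw [hgg]
    exact Fin.lastCases_last
  have hggc : ∀ i : Fin k, gg i.castSucc = g i := fun i => by
    rw [hgg]
    exact Fin.lastCases_castSucc i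
  obtain ⟨H, hH⟩ : ∃ H, H = HF x (HX (fun _ : Fin 1 => t) (fun _ => False)) := ⟨_, rfl⟩
  have hS : ∀ i : Fin (k + 1), Sep (fun (f : F i) (σ : F i →ₐ[ℂ] Ω) => σ f) (H i) (gg i) := by
    intro i
    induction i using Fin.lastCases with
    | last =>
      intro A hA
      rw [hggl] at hA
      exact absurd hA (Nat.not_lt_zero _)
    | cast i =>
      intro A hA c hc
      rw [hggc] at hA
      rw [hH, HF_cast] at hc
      exact hsep i Ω A hA c hc
  let T := {σ : K →ₐ[ℂ] Ω // σ ∈ c.support}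
  let p : ∀ i : Fin (k + 1), T → (F i →ₐ[ℂ] Ω) := fun i τ => fst (F i) τ.1
  let w : T → Ω := fun τ => (c τ.1 : Ω) * jac' (zz K (zS x hle e) t) D τ.1
  let τ1 : T := ⟨τ0, hτ0⟩
  have h0 : Rl p (fun i (f : F i) (σ : F i →ₐ[ℂ] Ω) => σ f) H w τ1 ∅ := by
    intro f hf
    have h2 := rel_all (F := F) hm hK hx hind hE hle e ht hz hc D f (fun i => by
      have := hf i (Finset.notMem_empty i)
      rwa [hH] at this)
    have hSJ : SJ p τ1 ∅ = Finset.univ := by
      ext τ
      simp [mem_SJ]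
    rw [← h2, ← Finset.sum_coe_sort c.support, hSJ]
    refine Finset.sum_congr rfl fun τ _ => ?_
    rw [Finset.compl_empty]
  have h2 := Rl.chain h0 hS (s := k) (fun l hl => by
    obtain ⟨i, rfl⟩ : ∃ i : Fin k, i.castSucc = l := ⟨⟨l.val, hl⟩, rfl⟩
    rw [hggc]
    refine lt_of_le_of_lt ?_ (hd i τ0 hτ0)
    rw [← Set.ncard_coe_finset]
    refine Set.ncard_le_ncard ?_ ?_
    · intro u hu
      rw [Finset.mem_coe, Finset.mem_image] at hu
      obtain ⟨τ, hτ, rfl⟩ := hu
      rw [mem_SJ] at hτ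
      exact ⟨τ.1, τ.2, fun j hj => hτ j (mem_Js.2 hj), rfl⟩
    · refine (c.support.image (fst (F i.castSucc))).finite_toSet.subset ?_
      rintro _ ⟨σ, hσ, -, rfl⟩
      exact Finset.mem_coe.2 (Finset.mem_image_of_mem _ hσ))
  have h3 := h2 (Fin.lastCases (motive := fun i => F i) b (fun _ => 1)) (fun i hi => by
    have hi' : i = Fin.last k := by
      rw [mem_Js] at hi
      apply Fin.ext
      have := i.2
      rw [Fin.val_last]
      omega
    subst hi'
    rw [Fin.lastCases_last, hH, HF_last]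
    exact hx_of_reg ht hD0 hb)
  have h4 : (Js (k + 1) k)ᶜ = {Fin.last k} := by
    ext l
    rw [Finset.mem_compl, mem_Js, Finset.mem_singleton, Fin.ext_iff, Fin.val_last]
    have := l.2
    omega
  rw [h4] at h3
  rw [← h3, Finset.sum_filter]
  have h5 : SJ p τ1 (Js (k + 1) k) = Finset.univ.filter (fun τ : T => fst E τ.1 = fst E τ0) := by
    ext τ
    rw [mem_SJ, Finset.mem_filter, fst_eq_iff hE]
    constructor
    · intro h
      exact ⟨Finset.mem_univ _, fun i => h i.castSucc (mem_Js.2 (by simp))⟩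
    · rintro ⟨-, h⟩ i hi
      rw [mem_Js] at hi
      obtain ⟨j, rfl⟩ : ∃ j : Fin k, j.castSucc = i := ⟨⟨i.val, hi⟩, rfl⟩
      exact h j
  rw [h5, Finset.sum_filter]
  rw [← Finset.sum_coe_sort c.support]
  refine Finset.sum_congr rfl fun τ _ => ?_
  by_cases h : fst E τ.1 = fst E τ0
  · rw [if_pos h, if_pos h, Finset.prod_singleton, Fin.lastCases_last]
    rfl
  · rw [if_neg h, if_neg h]

/-- the relations between the points, with weights which are not zero -/
theorem exists_rel [Algebra.EssFiniteType ℂ K] [∀ i, Algebra.EssFiniteType ℂ (F i)]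
    [IsFF ℂ (F (Fin.last k))] (hsup : ⨆ i, F i = ⊤)
    (hm : ∀ i : Fin k, Algebra.trdeg ℂ (F i.castSucc) = m i)
    (hK : Algebra.trdeg ℂ K = (∑ i, m i + 1 : ℕ))
    (hΩ : Algebra.trdeg ℂ Ω = (∑ i, m i + 1 : ℕ))
    {x : ∀ i : Fin k, Fin (m i) → F i.castSucc}
    (hx : ∀ i, IsTranscendenceBasis ℂ (x i)) {t : F (Fin.last k)} (ht : Transcendental ℂ t)
    {c : (K →ₐ[ℂ] Ω) →₀ ℤ} (hc : NullTrace (∑ i, m i + 1) c) :
    ∃ w : (K →ₐ[ℂ] Ω) → Ω, (∀ σ, w σ ≠ 0) ∧
      ∀ f : ∀ i, F i, (∀ i, f i ∈ HF x (HX (fun _ : Fin 1 => t) (fun _ => False)) i) →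
        ∑ σ ∈ c.support, (c σ : Ω) * w σ * ∏ i, fst (F i) σ (f i) = 0 := by
  classical
  obtain ⟨N, hN⟩ : ∃ N, N = ∑ i, m i := ⟨_, rfl⟩
  obtain ⟨e⟩ : Nonempty (Fin N ≃ (i : Fin k) × Fin (m i)) := by
    rw [hN]
    exact ⟨finSigmaFinEquiv.symm⟩
  have hind := ind_all' hsup hK hx
  rw [← hN] at hK hΩ hc
  obtain ⟨E, hE⟩ : ∃ E, E = ⨆ i : Fin k, F i.castSucc := ⟨_, rfl⟩
  have hle : ∀ i : Fin k, F i.castSucc ≤ E := fun i => by
    rw [hE]
    exact le_iSup (fun i : Fin k => F i.castSucc) i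
  have hessE : Algebra.EssFiniteType ℂ E := ess_iSup (F := fun i : Fin k => F i.castSucc) hE
  have hzb := basis_zS x hle e hx hind hE
  have htrE := trdeg_basis hzb
  have hsup' : E ⊔ F (Fin.last k) = ⊤ := by
    rw [eq_top_iff, ← hsup]
    refine iSup_le fun i => ?_
    induction i using Fin.lastCases with
    | last => exact le_sup_right
    | cast i => exact (hle i).trans le_sup_left
  obtain ⟨hna, -, hcl⟩ := pclosed K N E (F (Fin.last k)) hsup' htrE hK
  have hz := basis_zz hK hzb (hna t ht)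
  obtain ⟨y, hy⟩ := exists_tb (k := ℂ) (L := Ω) (m := N + 1) hΩ
  choose D hD using fun i : Fin (N + 1) => Pool.Agent.W602.GT.exists_der y hy
    fun j => if i = j then (1 : Ω) else 0
  exact ⟨jac' (zz K (zS x hle e) t) D, fun σ => jac_ne' hy hΩ hD hz σ,
    fun f hf => rel_all (F := F) hm hK hx hind hE hle e ht hz hc D f hf⟩

theorem one_basis {C : Type} [Field C] [Algebra ℂ C] [IsFF ℂ C] {t : C}
    (ht : Transcendental ℂ t) : IsTranscendenceBasis ℂ (fun _ : Fin 1 => t) := by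
  have h1 : AlgebraicIndependent ℂ (fun _ : Fin 1 => t) := by
    rw [algebraicIndependent_unique_type_iff]
    exact ht
  refine h1.isTranscendenceBasis_of_lift_trdeg_le_of_finite ?_
  rw [IsFF.trdeg]
  simp

open Pool.Agent.N162.GQ in
/-- at most one coordinate has many values -/
theorem good_pair [Algebra.EssFiniteType ℂ K] [∀ i, Algebra.EssFiniteType ℂ (F i)]
    [IsFF ℂ (F (Fin.last k))] (hsup : ⨆ i, F i = ⊤)
    (hm : ∀ i : Fin k, Algebra.trdeg ℂ (F i.castSucc) = m i)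
    (hK : Algebra.trdeg ℂ K = (∑ i, m i + 1 : ℕ)) [IsAlgClosed Ω]
    (hΩ : Algebra.trdeg ℂ Ω = (∑ i, m i + 1 : ℕ))
    {x : ∀ i : Fin k, Fin (m i) → F i.castSucc}
    (hx : ∀ i, IsTranscendenceBasis ℂ (x i))
    {c : (K →ₐ[ℂ] Ω) →₀ ℤ} (hc : NullTrace (∑ i, m i + 1) c) {g : Fin (k + 1) → ℕ}
    (hsep : ∀ i : Fin k, SepX (x i) (fun _ => False) (g i.castSucc))
    (hlast : SepF (F (Fin.last k)) 1 (fun _ => False) (g (Fin.last k)))
    (hg : ∀ i j, i ≠ j → c.support.card + 3 ≤ g i + g j) [∀ i, DecidableEq (F i →ₐ[ℂ] Ω)]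
    (i j : Fin (k + 1)) (hij : i ≠ j) :
    (c.support.image (fst (F i))).card < g i ∨ (c.support.image (fst (F j))).card < g j := by
  classical
  have hcΩ : CharZero Ω := charZero_of_injective_algebraMap (algebraMap ℂ Ω).injective
  by_cases hsmall : ∃ l, g l ≤ 1
  · obtain ⟨l, hl⟩ := hsmall
    by_cases hil : i = l
    · right
      have h1 := hg i j hij
      rw [hil] at h1
      have h2 : (c.support.image (fst (F j))).card ≤ c.support.card := Finset.card_image_le
      omega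
    · left
      have h1 := hg i l hil
      have h2 : (c.support.image (fst (F i))).card ≤ c.support.card := Finset.card_image_le
      omega
  push Not at hsmall
  by_contra hcon
  push Not at hcon
  obtain ⟨hbi, hbj⟩ := hcon
  obtain ⟨t, ht⟩ := IsFF.exists_transcendental (k := ℂ) (K := F (Fin.last k))
  obtain ⟨w, hw, hrel⟩ := exists_rel hsup hm hK hΩ hx ht hc
  obtain ⟨H, hH⟩ : ∃ H, H = HF x (HX (fun _ : Fin 1 => t) (fun _ => False)) := ⟨_, rfl⟩
  have hS : ∀ i : Fin (k + 1), Sep (fun (f : F i) (σ : F i →ₐ[ℂ] Ω) => σ f) (H i) (g i) := by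
    intro i
    induction i using Fin.lastCases with
    | last =>
      intro A hA c hc
      rw [hH, HF_last] at hc
      exact hlast _ (one_basis ht) Ω A hA c hc
    | cast i =>
      intro A hA c hc
      rw [hH, HF_cast] at hc
      exact hsep i Ω A hA c hc
  have hne0 : c.support.Nonempty := by
    rw [Finset.nonempty_iff_ne_empty]
    rintro h0
    rw [h0, Finset.image_empty, Finset.card_empty] at hbi
    have := hsmall i
    omega
  obtain ⟨τ0, hτ0⟩ := hne0
  have hf0 : ∀ l : Fin (k + 1), ∃ f : F l, f ∈ H l ∧ f ≠ 0 := by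
    intro l
    by_contra hcon
    push Not at hcon
    have h1 := hS l {fst (F l) τ0} (by
      rw [Finset.card_singleton]
      have := hsmall l
      omega) (fun _ => 1) (fun f hf => by
        rw [Finset.sum_singleton, hcon f hf]
        change 1 * (fst (F l) τ0) 0 = 0
        rw [map_zero, mul_zero]) _ (Finset.mem_singleton_self _)
    exact one_ne_zero h1
  choose f0 hf0H hf0ne using hf0
  let T := {σ : K →ₐ[ℂ] Ω // σ ∈ c.support}
  let p : ∀ i : Fin (k + 1), T → (F i →ₐ[ℂ] Ω) := fun i τ => fst (F i) τ.1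
  let wt : T → Ω := fun τ => (c τ.1 : Ω) * w τ.1
  let τ1 : T := ⟨τ0, hτ0⟩
  have hSJ : SJ p τ1 ∅ = Finset.univ := by
    ext τ
    simp [mem_SJ]
  have h0 : Rl p (fun i (f : F i) (σ : F i →ₐ[ℂ] Ω) => σ f) H wt τ1 ∅ := by
    intro f hf
    have h2 := hrel f (fun i => by
      have := hf i (Finset.notMem_empty i)
      rwa [hH] at this)
    rw [← h2, ← Finset.sum_coe_sort c.support, hSJ]
    refine Finset.sum_congr rfl fun τ _ => ?_
    rw [Finset.compl_empty]
  have himg : ∀ l, (SJ p τ1 ∅).image (p l) = c.support.image (fst (F l)) := by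
    intro l
    rw [hSJ]
    ext u
    rw [Finset.mem_image, Finset.mem_image]
    constructor
    · rintro ⟨τ, -, rfl⟩
      exact ⟨τ.1, τ.2, rfl⟩
    · rintro ⟨σ, hσ, rfl⟩
      exact ⟨⟨σ, hσ⟩, Finset.mem_univ _, rfl⟩
  have h1 := Rl.pair h0 (fun τ => mul_ne_zero (Int.cast_ne_zero.2
    (Finsupp.mem_support_iff.1 τ.2)) (hw τ.1)) hij (Finset.notMem_empty _)
    (Finset.notMem_empty _) (hS i) (hS j) f0 (fun l _ => hf0H l)
    (fun l τ => (map_ne_zero_iff _ (p l τ).injective).2 (hf0ne l))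
    (by rw [himg]; exact hbi) (by rw [himg]; exact hbj)
  rw [hSJ, Finset.card_univ, Fintype.card_coe] at h1
  have h2 := hg i j hij
  omega

end

section

open Pool.Agent.N162.GQ

variable {K Ω : Type} [Field K] [Algebra ℂ K] [Field Ω] [Algebra ℂ Ω] {k : ℕ}
  {F : Fin (k + 1) → IntermediateField ℂ K} {n g : Fin (k + 1) → ℕ}

/-- **Few values of all coordinates except one.** -/
theorem few_values [Algebra.EssFiniteType ℂ K] [∀ i, Algebra.EssFiniteType ℂ (F i)]
    (htr : ∀ i, Algebra.trdeg ℂ (F i) = n i)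
    (hsepF : ∀ i, SepF (F i) (n i) (fun _ => False) (g i)) (hsup : ⨆ i, F i = ⊤)
    (hK : Algebra.trdeg ℂ K = (∑ i, n i : ℕ)) [IsAlgClosed Ω]
    (hΩ : Algebra.trdeg ℂ Ω = (∑ i, n i : ℕ)) {c : (K →ₐ[ℂ] Ω) →₀ ℤ}
    (hc : NullTrace (∑ i, n i) c) [∀ i, DecidableEq (F i →ₐ[ℂ] Ω)] {b : Fin (k + 1)}
    (hb : n b = 1) (hd : ∀ i, i ≠ b → (c.support.image (fst (F i))).card < g i) :
    c ∈ Rat K Ω := by
  classical
  obtain ⟨s, hs⟩ : ∃ s, s = Equiv.swap b (Fin.last k) := ⟨_, rfl⟩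
  have hsl : s (Fin.last k) = b := by rw [hs, Equiv.swap_apply_right]
  have hsc : ∀ i : Fin k, s i.castSucc ≠ b := by
    intro i h
    rw [← hsl] at h
    exact Fin.castSucc_ne_last i (s.injective h)
  have hsum : ∑ i, n i = ∑ i : Fin k, n (s i.castSucc) + 1 := by
    rw [← Equiv.sum_comp s n, Fin.sum_univ_castSucc, hsl, hb]
  have hFF : IsFF ℂ (F (s (Fin.last k))) := by
    rw [hsl]
    exact ⟨inferInstance, by rw [htr, hb, Nat.cast_one]⟩
  choose x ex hx hex using fun i : Fin k =>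
    Pool.Agent.Y172.exists_crd (k := ℂ) (K := F (s i.castSucc)) (htr (s i.castSucc))
  rw [hsum] at hK hΩ hc
  refine nested (F := fun i => F (s i)) (m := fun i => n (s i.castSucc)) ?_
    (fun i => htr _) hK hΩ hx (g := fun i => g (s i.castSucc)) (fun i => hsepF _ _ (hx i)) hc ?_
  · rw [← hsup]
    exact Equiv.iSup_comp (g := F) s
  · intro i τ hτ
    refine lt_of_le_of_lt ?_ (hd _ (hsc i))
    rw [← Set.ncard_coe_finset]
    refine Set.ncard_le_ncard ?_ (Finset.finite_toSet _)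
    rintro _ ⟨σ, hσ, -, rfl⟩
    exact Finset.mem_coe.2 (Finset.mem_image_of_mem _ hσ)

/-- **Few points.** -/
theorem few_pts [Algebra.EssFiniteType ℂ K] [∀ i, Algebra.EssFiniteType ℂ (F i)]
    (htr : ∀ i, Algebra.trdeg ℂ (F i) = n i)
    (hsepF : ∀ i, SepF (F i) (n i) (fun _ => False) (g i)) (hsup : ⨆ i, F i = ⊤)
    (hK : Algebra.trdeg ℂ K = (∑ i, n i : ℕ)) [IsAlgClosed Ω]
    (hΩ : Algebra.trdeg ℂ Ω = (∑ i, n i : ℕ)) {c : (K →ₐ[ℂ] Ω) →₀ ℤ}
    (hc : NullTrace (∑ i, n i) c) (hlast : n (Fin.last k) = 1)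
    (hg : ∀ i j, i ≠ j → c.support.card + 3 ≤ g i + g j)
    (hg' : ∀ i, n i ≠ 1 → c.support.card < g i) : c ∈ Rat K Ω := by
  classical
  have hFF : IsFF ℂ (F (Fin.last k)) := ⟨inferInstance, by rw [htr, hlast, Nat.cast_one]⟩
  have hsum : ∑ i, n i = ∑ i : Fin k, n i.castSucc + 1 := by
    rw [Fin.sum_univ_castSucc, hlast]
  choose x ex hx hex using fun i : Fin k =>
    Pool.Agent.Y172.exists_crd (k := ℂ) (K := F i.castSucc) (htr i.castSucc)
  have hgood := good_pair (F := F) (m := fun i => n i.castSucc) (Ω := Ω) (c := c) (g := g) hsup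
    (fun i => htr _) (by rw [← hsum]; exact hK) (by rw [← hsum]; exact hΩ) hx
    (by rw [← hsum]; exact hc) (fun i => hsepF _ _ (hx i))
    (by
      have := hsepF (Fin.last k)
      rwa [hlast] at this) hg
  by_cases hbad : ∃ b, g b ≤ (c.support.image (fst (F b))).card
  · obtain ⟨b, hb⟩ := hbad
    refine few_values htr hsepF hsup hK hΩ hc (b := b) ?_ fun i hi => ?_
    · by_contra h1
      have h2 := hg' b h1
      have h3 : (c.support.image (fst (F b))).card ≤ c.support.card := Finset.card_image_le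
      omega
    · rcases hgood i b hi with h | h
      · exact h
      · omega
  · push Not at hbad
    exact few_values htr hsepF hsup hK hΩ hc (b := Fin.last k) hlast fun i _ => hbad i

end

end Pool.Agent.K6.H85.PV
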