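import Pool.Agent.N162.PR.Main2
import Pool.Agent.K6.H85.PV.Ld

/-!
The part of a cycle with null trace on the product of a variety and a curve over one point of the
variety.
-/

set_option autoImplicit false
set_option linter.overlappingInstances false
set_option linter.unusedSectionVars false
set_option linter.unusedVariables false
set_option maxHeartbeats 4000000
set_option synthInstance.maxHeartbeats 400000

open FF Polynomial Pool.Agent.W603.LV Pool.Agent.W602.GT Pool.Agent.W619.PQ Pool.Agent.N162.BC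
open Pool.Agent.N162.PR IntermediateField
open scoped TensorProduct

namespace Pool.Agent.K6.H85.PV

section

variable {F₁ F₂ K Ω : Type} [Field F₁] [Field F₂] [Field K] [Algebra ℂ F₁] [Algebra ℂ F₂]
  [Algebra ℂ K] [Algebra F₁ K] [Algebra F₂ K] [IsScalarTower ℂ F₁ K] [IsScalarTower ℂ F₂ K]
  [Field Ω] [Algebra ℂ Ω]

theorem fst_apply (σ : K →ₐ[ℂ] Ω) (a : F₁) : fst F₁ σ a = σ (algebraMap F₁ K a) := rfl

/-- homomorphisms of the tensor product extend to the function field of the product -/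
theorem lift' (h : IsProd F₁ F₂ K) {A : Type} [Field A] (χ : F₁ ⊗[ℂ] F₂ →+* A)
    (hχ : Function.Injective χ) : ∃ g : K →+* A,
      (∀ a : F₁, g (algebraMap F₁ K a) = χ (a ⊗ₜ 1)) ∧
      ∀ b : F₂, g (algebraMap F₂ K b) = χ (1 ⊗ₜ b) := by
  obtain ⟨ψ, h1, h2, h3⟩ := h.ex
  have hdom : IsDomain (F₁ ⊗[ℂ] F₂) := h2.isDomain ψ.toRingHom
  let iT : Algebra (F₁ ⊗[ℂ] F₂) K := ψ.toRingHom.toAlgebra
  have hT : ∀ t, algebraMap (F₁ ⊗[ℂ] F₂) K t = ψ t := fun t => rfl
  have hfaith : FaithfulSMul (F₁ ⊗[ℂ] F₂) K := (faithfulSMul_iff_algebraMap_injective _ _).2 h2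
  have hfrac : IsFractionRing (F₁ ⊗[ℂ] F₂) K := by
    refine IsFractionRing.of_field _ _ fun z => ?_
    obtain ⟨p, q, hq, hz⟩ := h3 z
    refine ⟨p, q, ?_⟩
    rw [hT, hT, ← hz]
    field_simp
  refine ⟨IsFractionRing.lift (K := K) hχ, fun a => ?_, fun b => ?_⟩
  · have h4 : algebraMap F₁ K a = algebraMap (F₁ ⊗[ℂ] F₂) K (a ⊗ₜ 1) := by
      rw [hT, h1, map_one, mul_one]
    rw [h4, IsFractionRing.lift_algebraMap]
  · have h4 : algebraMap F₂ K b = algebraMap (F₁ ⊗[ℂ] F₂) K (1 ⊗ₜ b) := by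
      rw [hT, h1, map_one, one_mul]
    rw [h4, IsFractionRing.lift_algebraMap]

theorem pt_ext' (h : IsProd F₁ F₂ K) {σ τ : K →ₐ[ℂ] Ω} (h1 : fst F₁ σ = fst F₁ τ)
    (h2 : fst F₂ σ = fst F₂ τ) : σ = τ := by
  have h3 : (σ : K →+* Ω) = (τ : K →+* Ω) := by
    refine h.hom_ext (fun a => ?_) (fun b => ?_)
    · exact congrArg (fun g : F₁ →ₐ[ℂ] Ω => g a) h1
    · exact congrArg (fun g : F₂ →ₐ[ℂ] Ω => g b) h2
  ext z
  exact congrArg (fun g : K →+* Ω => g z) h3

/-- centres on the product -/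
theorem centred' (h : IsProd F₁ F₂ K) {M : Type} [Field M] [Algebra Ω M]
    {τ : K →+* M} {v : Place Ω M} {σ : K →ₐ[ℂ] Ω}
    (h1 : ∀ a : F₁, Ge v 1 (τ (algebraMap F₁ K a) - algebraMap Ω M (σ (algebraMap F₁ K a))))
    (h2 : ∀ b : F₂, Ge v 1 (τ (algebraMap F₂ K b) - algebraMap Ω M (σ (algebraMap F₂ K b)))) :
    CentredAt τ v σ := by
  rw [centred_iff]
  have hreg : ∀ z : K, Ge v 1 (τ z - algebraMap Ω M (σ z)) → Ge v 0 (τ z) := by
    intro z hz
    have h3 : τ z = (τ z - algebraMap Ω M (σ z)) + algebraMap Ω M (σ z) := by ring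
    rw [h3]
    exact (hz.mono (by norm_num)).add (Ge.const _)
  let S : Subfield K :=
    { carrier := {z | Ge v 1 (τ z - algebraMap Ω M (σ z))}
      mul_mem' := by
        intro a b ha hb
        have h3 : τ (a * b) - algebraMap Ω M (σ (a * b)) =
            τ a * (τ b - algebraMap Ω M (σ b)) +
              algebraMap Ω M (σ b) * (τ a - algebraMap Ω M (σ a)) := by
          simp only [map_mul]
          ring
        change Ge v 1 _
        rw [h3]
        have h4 := (hreg a ha).mul hb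
        have h5 := (Ge.const (P := v) (σ b)).mul ha
        rw [zero_add] at h4 h5
        exact h4.add h5
      one_mem' := by
        change Ge v 1 _
        rw [map_one, map_one, map_one, sub_self]
        exact Or.inl rfl
      add_mem' := by
        intro a b ha hb
        have h3 : τ (a + b) - algebraMap Ω M (σ (a + b)) =
            (τ a - algebraMap Ω M (σ a)) + (τ b - algebraMap Ω M (σ b)) := by
          simp only [map_add]
          ring
        change Ge v 1 _
        rw [h3]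
        exact Ge.add ha hb
      zero_mem' := by
        change Ge v 1 _
        rw [map_zero, map_zero, map_zero, sub_self]
        exact Or.inl rfl
      neg_mem' := by
        intro a ha
        have h3 : τ (-a) - algebraMap Ω M (σ (-a)) = -(τ a - algebraMap Ω M (σ a)) := by
          simp only [map_neg]
          ring
        change Ge v 1 _
        rw [h3]
        exact Ge.neg ha
      inv_mem' := by
        intro a ha
        change Ge v 1 _
        rcases eq_or_ne a 0 with rfl | ha0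
        · rw [inv_zero, map_zero, map_zero, map_zero, sub_self]
          exact Or.inl rfl
        have hσa : algebraMap Ω M (σ a) ≠ 0 := by simpa using ha0
        have hτa : τ a ≠ 0 := by simpa using ha0
        have hord : v.ord (τ a) = 0 := by
          have h5 : Ge v 0 (τ a) := hreg a ha
          have h6 : 0 ≤ v.ord (τ a) := h5.resolve_left hτa
          by_contra hne
          have h7 : Ge v 1 (τ a) := Or.inr (by omega)
          have h8 : Ge v 1 (algebraMap Ω M (σ a)) := by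
            have h9 : algebraMap Ω M (σ a) = τ a + -(τ a - algebraMap Ω M (σ a)) := by ring
            rw [h9]
            exact h7.add (Ge.neg ha)
          have h9 := not_ge_const h8
          apply hσa
          rw [h9, map_zero]
        have h3 : τ a⁻¹ - algebraMap Ω M (σ a⁻¹) =
            (τ a)⁻¹ * (algebraMap Ω M (σ a)⁻¹ * -(τ a - algebraMap Ω M (σ a))) := by
          rw [map_inv₀, map_inv₀, map_inv₀]
          field_simp
          ring
        rw [h3]
        have h4 : Ge v 0 (τ a)⁻¹ := Or.inr (by rw [v.ord_inv, hord]; norm_num)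
        have h5 := h4.mul ((Ge.const (P := v) (σ a)⁻¹).mul (Ge.neg ha))
        rw [zero_add, zero_add] at h5
        exact h5 }
  intro a
  exact h.gen S h1 h2 a


variable [IsFF ℂ F₂] {m : ℕ}

/-- the Jacobian determinant of the coordinates -/
noncomputable def jac' (z : Fin m → K) (D : Fin m → Derivation ℂ Ω Ω) (σ : K →ₐ[ℂ] Ω) : Ω :=
  (Matrix.of fun i j => D i (σ (z j))).det

theorem part_aux {F : Type} [Field F] [IsAlgClosed Ω] [Algebra F₁ Ω] [IsScalarTower ℂ F₁ Ω]
    [Algebra F₁ F] [Algebra F Ω] [IsScalarTower F₁ F Ω] [Algebra ℂ F] [IsScalarTower ℂ F Ω]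
    [IsAlgClosed F] [Algebra.IsAlgebraic F₁ F] (h : IsProd F₁ F₂ K)
    (h1 : Algebra.trdeg ℂ F₁ = (m : ℕ)) (hΩ : Algebra.trdeg ℂ Ω = (m + 1 : ℕ)) {s : Fin m → F₁}
    (hs : IsTranscendenceBasis ℂ s)
    {t : F₂} (ht : Transcendental ℂ t) (D₂ : Derivation ℂ F₂ F₂) (hD₂ : D₂ t = 1)
    {c : (K →ₐ[ℂ] Ω) →₀ ℤ} (u : F₁ →ₐ[ℂ] Ω) (hu : ∀ a, algebraMap F₁ Ω a = u a)
    [DecidableEq (F₁ →ₐ[ℂ] Ω)]
    (hrel : ∀ (D : Fin (m + 1) → Derivation ℂ Ω Ω) (b : F₂),
      (∀ p : Place ℂ F₂, Ge p (vo p D₂) b) →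
      ∑ σ ∈ c.support with fst F₁ σ = u,
        (c σ : Ω) * jac' (Fin.snoc (α := fun _ => K) (fun j => algebraMap F₁ K (s j))
          (algebraMap F₂ K t)) D σ * σ (algebraMap F₂ K b) = 0) :
    c.filter (fun σ => fst F₁ σ = u) ∈ Rat K Ω := by
  classical
  have hcF : CharZero F := charZero_of_injective_algebraMap (algebraMap ℂ F).injective
  have hcF₁ : CharZero F₁ := charZero_of_injective_algebraMap (algebraMap ℂ F₁).injective
  have hcΩ : CharZero Ω := charZero_of_injective_algebraMap (algebraMap ℂ Ω).injective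
  have htr1 : Algebra.trdeg F₁ Ω = 1 := trdeg_one (k := ℂ) (L := F₁) (m := m) hΩ h1
  have htrF : Algebra.trdeg F Ω = 1 := by
    have h1 := trdeg_add_eq F₁ F (A := Ω)
    rw [htr1, _root_.trdeg_eq_zero_iff.2 (inferInstance : Algebra.IsAlgebraic F₁ F), zero_add] at h1
    exact h1
  obtain ⟨w, hw⟩ := exists_transc (L := F) (Ω := Ω) htrF
  obtain ⟨δ, hδ⟩ := Pool.Agent.W602.GT.exists_der (fun _ : Unit => w) (basis_one htrF hw)
    (fun _ => 1)
  have hδw : δ w = 1 := hδ ()
  have hδne : δ ≠ 0 := by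
    rintro rfl
    simp at hδw
  have hw1 : Transcendental F₁ w := by
    intro hw1
    exact hw (hw1.tower_top F)
  have hb := snoc_tb (A := Ω) hs (basis_one htr1 hw1)
  obtain ⟨y, hy⟩ : ∃ y, y = Fin.snoc (α := fun _ => Ω) (fun i => algebraMap F₁ Ω (s i)) w :=
    ⟨_, rfl⟩
  rw [← hy] at hb
  have hyc : ∀ i : Fin m, y (Fin.castSucc i) = u (s i) := fun i => by
    rw [hy, Fin.snoc_castSucc, hu]
  have hyl : y (Fin.last m) = w := by rw [hy, Fin.snoc_last]
  choose H hH using fun i : Fin (m + 1) => Pool.Agent.W602.GT.exists_der y hb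
    fun j => if i = j then (1 : Ω) else 0
  have hδu : ∀ a, δ (u a) = 0 := by
    intro a
    rw [← hu, IsScalarTower.algebraMap_apply F₁ F Ω]
    exact δ.map_algebraMap _
  have hHδ : ∀ a, H (Fin.last m) a = δ a := by
    have h1 : H (Fin.last m) = δ.restrictScalars ℂ := by
      refine Pool.Agent.W602.GT.der_ext y hb fun i => ?_
      rw [hH]
      refine Fin.lastCases ?_ (fun j => ?_) i
      · rw [if_pos rfl, hyl]
        exact hδw.symm
      · rw [if_neg (Fin.castSucc_lt_last j).ne', hyc]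
        exact (hδu (s j)).symm
    intro a
    rw [h1]
    rfl
  have hjac : ∀ σ : K →ₐ[ℂ] Ω, fst F₁ σ = u →
      jac' (Fin.snoc (α := fun _ => K) (fun j => algebraMap F₁ K (s j))
          (algebraMap F₂ K t)) H σ =
        δ (σ (algebraMap F₂ K t)) := by
    intro σ hσ
    unfold jac'
    rw [det_tri]
    · rw [Matrix.of_apply, Fin.snoc_last, hHδ]
    · intro i j
      rw [Matrix.of_apply, Fin.snoc_castSucc]
      have h4 : σ (algebraMap F₁ K (s j)) = y (Fin.castSucc j) := by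
        rw [hyc, ← hσ]
        rfl
      rw [h4, hH]
  -- the points over `u`
  have htr : ∀ σ : K →ₐ[ℂ] Ω, fst F₁ σ = u → Transcendental F (fst F₂ σ t) := by
    intro σ hσ hal
    have h1 : Transcendental F₁ (algebraMap F₂ K t) := h.transc ht
    apply h1
    have h2 : IsAlgebraic F₁ (fst F₂ σ t) := hal.restrictScalars F₁
    have hcomm : ∀ a : F₁, σ (algebraMap F₁ K a) = algebraMap F₁ Ω a := by
      intro a
      rw [hu, ← hσ]
      rfl
    let σ' : K →ₐ[F₁] Ω := { σ with commutes' := hcomm }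
    have h3 : IsAlgebraic F₁ (σ' (algebraMap F₂ K t)) := h2
    exact (isAlgebraic_algHom_iff σ' σ'.toRingHom.injective).1 h3
  have hinj : Set.InjOn (fst F₂ : (K →ₐ[ℂ] Ω) → (F₂ →ₐ[ℂ] Ω)) {σ | fst F₁ σ = u} := by
    intro σ hσ τ hτ hστ
    exact pt_ext' (F₁ := F₁) (F₂ := F₂) h (by rw [hσ, hτ]) hστ
  obtain ⟨c', hc'⟩ : ∃ c', c' = (c.filter (fun σ => fst F₁ σ = u)).mapDomain (fst F₂) := ⟨_, rfl⟩
  have hsub : ((c.filter (fun σ => fst F₁ σ = u)).support : Set (K →ₐ[ℂ] Ω)) ⊆
      {σ | fst F₁ σ = u} := by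
    intro σ hσ
    rw [Finset.mem_coe, Finsupp.support_filter, Finset.mem_filter] at hσ
    exact hσ.2
  have hc'1 : ∀ σ : K →ₐ[ℂ] Ω, fst F₁ σ = u → c' (fst F₂ σ) = c σ := by
    intro σ hσ
    rw [hc', Finsupp.mapDomain_apply' _ _ hsub hinj hσ, Finsupp.filter_apply, if_pos hσ]
  have hc'2 : ∀ y, c' y ≠ 0 → Transcendental F (y t) := by
    intro y hy
    have h1 : y ∈ (c.filter (fun σ => fst F₁ σ = u)).support.image (fst F₂) := by
      rw [← Finsupp.mem_support_iff, hc'] at hy
      exact Finsupp.mapDomain_support hy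
    obtain ⟨σ, hσ, rfl⟩ := Finset.mem_image.1 h1
    exact htr σ (hsub hσ)
  have hc'3 : ∀ T : F₂, (∀ p : Place ℂ F₂, Ge p (vo p D₂) T) →
      ∑ y ∈ c'.support, (c' y : Ω) * (y T * δ (y t)) = 0 := by
    intro T hT
    have h1 : c'.sum (fun y m => (m : Ω) * (y T * δ (y t))) =
        (c.filter (fun σ => fst F₁ σ = u)).sum
          (fun σ m => (m : Ω) * (fst F₂ σ T * δ (fst F₂ σ t))) := by
      rw [hc', Finsupp.sum_mapDomain_index]
      · intro y
        rw [Int.cast_zero, zero_mul]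
      · intro y m m'
        rw [Int.cast_add, add_mul]
    have h2 := hrel H T hT
    change c'.sum (fun y m => (m : Ω) * (y T * δ (y t))) = 0
    rw [h1, ← h2, Finsupp.sum, Finsupp.support_filter]
    refine Finset.sum_congr rfl fun σ hσ => ?_
    have h3 := (Finset.mem_filter.1 hσ).2
    rw [hjac σ h3, Finsupp.filter_apply, if_pos h3, fst_apply, fst_apply]
    ring
  obtain ⟨M, hM, a1, a2, hMF, hcomp, hlin, f, hf0, hf⟩ := fibre_const ℂ F₂ F Ω htrF δ hδne ht D₂ hD₂
    c' hc'2 hc'3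
  -- the curve over `u`
  let m1 : Algebra ℂ M := ((algebraMap Ω M).comp (algebraMap ℂ Ω)).toAlgebra
  let m2 : Algebra F₁ M := ((algebraMap Ω M).comp (algebraMap F₁ Ω)).toAlgebra
  have m3 : IsScalarTower ℂ F₁ M := IsScalarTower.of_algebraMap_eq fun z => by
    change algebraMap Ω M (algebraMap ℂ Ω z) = algebraMap Ω M (algebraMap F₁ Ω (algebraMap ℂ F₁ z))
    rw [← IsScalarTower.algebraMap_apply ℂ F₁ Ω]
  have m4 : IsScalarTower ℂ F₂ M := IsScalarTower.of_algebraMap_eq fun z => hcomp z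
  have m5 : IsScalarTower F₁ Ω M := IsScalarTower.of_algebraMap_eq fun z => rfl
  have LD : ∀ {ι : Type} (v : ι → F₂), LinearIndependent ℂ v →
      LinearIndependent F₁ (fun i => algebraMap F₂ M (v i)) := by
    intro ι v hv
    have h1 := hlin v hv
    exact h1.restrict_scalars (R := F₁) (by
      intro a b hab
      simp only [Algebra.smul_def, mul_one] at hab
      exact (algebraMap F₁ Ω).injective hab)
  let χ : F₁ ⊗[ℂ] F₂ →ₐ[ℂ] M := Algebra.TensorProduct.lift (IsScalarTower.toAlgHom ℂ F₁ M)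
    (IsScalarTower.toAlgHom ℂ F₂ M) (fun _ _ => Commute.all _ _)
  have hχ : ∀ (a : F₁) (b : F₂), χ (a ⊗ₜ b) = algebraMap F₁ M a * algebraMap F₂ M b := by
    intro a b
    simp [χ]
  have hχinj := tensor_inj LD χ hχ
  obtain ⟨τ, hτ1, hτ2⟩ := lift' h (χ : F₁ ⊗[ℂ] F₂ →+* M) hχinj
  have hτ1' : ∀ a : F₁, τ (algebraMap F₁ K a) = algebraMap Ω M (u a) := by
    intro a
    rw [hτ1]
    change χ (a ⊗ₜ 1) = _
    rw [hχ, map_one, mul_one, ← hu]
    rfl
  have hτ2' : ∀ b : F₂, τ (algebraMap F₂ K b) = algebraMap F₂ M b := by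
    intro b
    rw [hτ2]
    change χ (1 ⊗ₜ b) = _
    rw [hχ, map_one, one_mul]
  refine AddSubgroup.subset_closure ⟨M, hM, a1, hMF, τ, f, ?_, hf0, ?_⟩
  · intro z
    rw [IsScalarTower.algebraMap_apply ℂ F₁ K, hτ1', u.commutes]
  · intro σ
    by_cases hσ : fst F₁ σ = u
    · rw [Finsupp.filter_apply, if_pos hσ]
      obtain ⟨P, hP, hPv⟩ := hf (fst F₂ σ) (htr σ hσ)
      have h1 : {v : Place Ω M | CentredAt τ v σ} = {P} := by
        ext v
        rw [Set.mem_ofPred_eq, Set.mem_singleton_iff, ← hPv v]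
        constructor
        · intro hv κ
          have h2 := centred_iff.1 hv (algebraMap F₂ K κ)
          rw [hτ2'] at h2
          exact h2
        · intro hv
          refine centred' h (fun a => ?_) (fun b => ?_)
          · have h2 : σ (algebraMap F₁ K a) = u a := by rw [← hσ]; rfl
            rw [hτ1', h2, sub_self]
            exact Or.inl rfl
          · rw [hτ2']
            exact hv b
      rw [h1, finsum_mem_singleton, hP, hc'1 σ hσ]
    · rw [Finsupp.filter_apply, if_neg hσ]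
      have h1 : {v : Place Ω M | CentredAt τ v σ} = ∅ := by
        rw [Set.eq_empty_iff_forall_notMem]
        intro v hv
        apply hσ
        ext l
        have h3 := centred_iff.1 hv (algebraMap F₁ K l)
        rw [hτ1', ← map_sub] at h3
        exact (sub_eq_zero.1 (not_ge_const h3)).symm
      rw [h1, finsum_mem_empty]

/-- **The part over one point of the variety.** -/
theorem part_mem' [IsAlgClosed Ω] (h : IsProd F₁ F₂ K)
    (h1 : Algebra.trdeg ℂ F₁ = (m : ℕ)) (hΩ : Algebra.trdeg ℂ Ω = (m + 1 : ℕ)) {s : Fin m → F₁}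
    (hs : IsTranscendenceBasis ℂ s)
    {t : F₂} (ht : Transcendental ℂ t) (D₂ : Derivation ℂ F₂ F₂) (hD₂ : D₂ t = 1)
    {c : (K →ₐ[ℂ] Ω) →₀ ℤ} (u : F₁ →ₐ[ℂ] Ω)
    [DecidableEq (F₁ →ₐ[ℂ] Ω)]
    (hrel : ∀ (D : Fin (m + 1) → Derivation ℂ Ω Ω) (b : F₂),
      (∀ p : Place ℂ F₂, Ge p (vo p D₂) b) →
      ∑ σ ∈ c.support with fst F₁ σ = u,
        (c σ : Ω) * jac' (Fin.snoc (α := fun _ => K) (fun j => algebraMap F₁ K (s j))
          (algebraMap F₂ K t)) D σ * σ (algebraMap F₂ K b) = 0) :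
    c.filter (fun σ => fst F₁ σ = u) ∈ Rat K Ω := by
  let i1 : Algebra F₁ Ω := u.toRingHom.toAlgebra
  have hi1 : ∀ l : F₁, algebraMap F₁ Ω l = u l := fun l => rfl
  have i2 : IsScalarTower ℂ F₁ Ω := IsScalarTower.of_algebraMap_eq fun z => by
    rw [hi1]
    exact (u.commutes z).symm
  have hFc : IsAlgClosed (algebraicClosure F₁ Ω) := IsAlgClosure.isAlgClosed F₁
  have hFa : Algebra.IsAlgebraic F₁ (algebraicClosure F₁ Ω) := IsAlgClosure.isAlgebraic
  have hFt : IsScalarTower ℂ (algebraicClosure F₁ Ω) Ω := IsScalarTower.of_algebraMap_eq fun z => rfl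
  exact part_aux (F := algebraicClosure F₁ Ω) h h1 hΩ hs ht D₂ hD₂ u hi1 hrel

end

end Pool.Agent.K6.H85.PV
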