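import Pool.Agent.K6.H85.PV.Part
import Pool.Agent.N145.SX.Prods
import Pool.Agent.N145.SX.Main
import Pool.Agent.N442.SX.SEC2
import Pool.Agent.N123.SX.PULL
import Pool.Agent.N221.SX.SEC
import Pool.Agent.TH466.QG.Low
import Pool.Agent.N160.SX.CLOSED
import Pool.Agent.N145.PC.Two

/-!
The relations between the points of a cycle with null trace on the product of several varieties and
a curve.
-/

set_option autoImplicit false
set_option linter.overlappingInstances false
set_option linter.unusedSectionVars false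
set_option linter.unusedVariables false
set_option maxHeartbeats 4000000
set_option synthInstance.maxHeartbeats 400000

open FF Polynomial Pool.Agent.W603.LV Pool.Agent.W619.PQ Pool.Agent.N162.BC
open Pool.Agent.N162.PR IntermediateField
open Pool.Agent.N145.SX Pool.Agent.N145.PC Pool.Agent.N145.PL
open Pool.Agent.W602.GT (Divisorial RegAt IsPluri DerReg DerLog LogAt)
open Pool.Agent.Y184.NT (trForm trForm_pluri)
open Pool.Agent.R882.LT (SecAt)
open scoped TensorProduct

namespace Pool.Agent.K6.H85.PV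

theorem psec2 : S_SEC2 := Pool.Agent.N442.SX.SEC2 Pool.Agent.N123.SX.PULL

theorem pclosed : S_CLOSED := Pool.Agent.N160.SX.CLOSED

/-- regular differentials -/
theorem hx_of_reg {C : Type} [Field C] [Algebra ℂ C] [IsFF ℂ C] {t : C} (ht : Transcendental ℂ t)
    {D : Derivation ℂ C C} (hD : D t = 1) {f : C} (hf : ∀ P : Place ℂ C, Ge P (vo P D) f) :
    f ∈ HX (fun _ : Fin 1 => t) (fun _ => False) := by
  intro P _
  have key : ∀ E : Derivation ℂ C C, DerReg P E → P.Reg (E t * f) := by
    intro E hE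
    have h := Pool.Agent.N221.SX.ent_reg (K := C) (C := C) ht hD (B := ∅)
      (Pool.Agent.N145.PL.HH_le_HL D ∅ hf) P (fun p hp => absurd hp (Set.notMem_empty p)) hE
    have h' : Ge P 0 (f * E t) := h
    rw [mul_comm]
    exact h'
  have hreg : RegAt P (trForm (fun _ : Fin 1 => t) f) := by
    intro D' hD'
    unfold trForm
    rw [Matrix.det_fin_one, Matrix.of_apply]
    exact key (D' 0) (hD' 0)
  exact ⟨fun D' hD' => hreg D' fun i => Pool.Agent.TH466.QG.derReg_of_log (hD' i), fun _ => hreg⟩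

section

variable {K Ω : Type} [Field K] [Algebra ℂ K] [Field Ω] [Algebra ℂ Ω]

/-- the coordinates are independent -/
theorem ind_all' {k : ℕ} {F : Fin (k + 1) → IntermediateField ℂ K}
    {m : Fin k → ℕ} [IsFF ℂ (F (Fin.last k))] (hsup : ⨆ i, F i = ⊤)
    (hK : Algebra.trdeg ℂ K = (∑ i, m i + 1 : ℕ)) {x : ∀ i : Fin k, Fin (m i) → F i.castSucc}
    (hx : ∀ i, IsTranscendenceBasis ℂ (x i)) :
    AlgebraicIndependent ℂ fun p : (i : Fin k) × Fin (m i) => (x p.1 p.2 : K) := by
  obtain ⟨t, ht⟩ := IsFF.exists_transcendental (k := ℂ) (K := F (Fin.last k))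
  obtain ⟨e⟩ : Nonempty (Fin (∑ i, m i) ≃ (i : Fin k) × Fin (m i)) := ⟨finSigmaFinEquiv.symm⟩
  let w : Fin (∑ i, m i + 1) → K :=
    Fin.snoc (α := fun _ => K) (fun l => (x (e l).1 (e l).2 : K)) (t : K)
  have hwl : w (Fin.last _) = t := Fin.snoc_last _ _
  have hwc : ∀ l : Fin (∑ i, m i), w l.castSucc = x (e l).1 (e l).2 := fun l =>
    Fin.snoc_castSucc _ _ _
  obtain ⟨S, hS⟩ : ∃ S, S = IntermediateField.adjoin ℂ (Set.range w) := ⟨_, rfl⟩
  have hwS : ∀ l, w l ∈ S := fun l => by
    rw [hS]
    exact IntermediateField.subset_adjoin _ _ ⟨l, rfl⟩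
  have hlast : IsTranscendenceBasis ℂ (fun _ : Fin 1 => t) := by
    have h1 : AlgebraicIndependent ℂ (fun _ : Fin 1 => t) := by
      rw [algebraicIndependent_unique_type_iff]
      exact ht
    refine h1.isTranscendenceBasis_of_lift_trdeg_le_of_finite ?_
    rw [IsFF.trdeg]
    simp
  have h3 : ∀ i, ∀ v ∈ F i, IsAlgebraic S v := by
    intro i
    induction i using Fin.lastCases with
    | last =>
      intro v hv
      refine alg_of_basis hlast (fun j => ?_) hv
      rw [← hwl]
      exact hwS _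
    | cast i =>
      intro v hv
      refine alg_of_basis (hx i) (fun j => ?_) hv
      have h1 := hwS (e.symm ⟨i, j⟩).castSucc
      rw [hwc, Equiv.apply_symm_apply] at h1
      exact h1
  have h4 := le_algCl h3 (T := ⊤) hsup.symm
  have h5 : Algebra.IsAlgebraic (Algebra.adjoin ℂ (Set.range w)) K := by
    refine Pool.Agent.W619.PQ.alg_adjoin fun z => ?_
    have h6 := h4 (IntermediateField.mem_top (x := z))
    rw [mem_restrictScalars, mem_algebraicClosure_iff, hS] at h6
    exact h6
  have h6 : IsTranscendenceBasis ℂ w := by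
    refine Algebra.IsAlgebraic.isTranscendenceBasis_of_lift_le_trdeg_of_finite ℂ _ ?_
    rw [hK]
    simp
  have h7 := h6.1.comp (fun p : (i : Fin k) × Fin (m i) => (e.symm p).castSucc)
    ((Fin.castSucc_injective _).comp e.symm.injective)
  have h8 : (w ∘ fun p : (i : Fin k) × Fin (m i) => (e.symm p).castSucc) =
      fun p => (x p.1 p.2 : K) := by
    funext p
    rw [Function.comp_apply, hwc, Equiv.apply_symm_apply]
  rwa [h8] at h7

/-- the relations between the points, two factors -/
theorem rel1 {E C : IntermediateField ℂ K} [Algebra.EssFiniteType ℂ E] [IsFF ℂ C] {N : ℕ}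
    (hE : Algebra.trdeg ℂ E = N) (hK : Algebra.trdeg ℂ K = (N + 1 : ℕ))
    {x : Fin N → E} (hx : IsTranscendenceBasis ℂ x) {t : C} (ht : Transcendental ℂ t)
    (hz : IsTranscendenceBasis ℂ (zz K x t))
    {c : (K →ₐ[ℂ] Ω) →₀ ℤ} (hc : NullTrace (N + 1) c)
    (D : Fin (N + 1) → Derivation ℂ Ω Ω) {BX : Place ℂ E → Prop} (hBX : ∀ P, ¬ BX P) {f : E}
    (hf : f ∈ HX x BX) {b : C} (hb : b ∈ HX (fun _ : Fin 1 => t) (fun _ => False)) :
    ∑ σ ∈ c.support, (c σ : Ω) * jac' (zz K x t) D σ * (σ (f : K) * σ (b : K)) = 0 := by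
  classical
  have htb : IsTranscendenceBasis ℂ (fun _ : Fin 1 => t) := by
    have h1 : AlgebraicIndependent ℂ (fun _ : Fin 1 => t) := by
      rw [algebraicIndependent_unique_type_iff]
      exact ht
    refine h1.isTranscendenceBasis_of_lift_trdeg_le_of_finite ?_
    rw [IsFF.trdeg]
    simp
  choose G hG using fun i : Fin (N + 1) => Pool.Agent.W602.GT.exists_der _ hz
    fun j => if i = j then (1 : K) else 0
  have hGv : ∀ a, trForm (zz K x t) a G = a := by
    intro a
    have h1 : (Matrix.of fun i j => G i (zz K x t j) : Matrix (Fin (N + 1)) (Fin (N + 1)) K) = 1 := by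
      ext i j
      rw [Matrix.of_apply, hG, Matrix.one_apply]
    rw [trForm, h1, Matrix.det_one, one_mul]
  have hessC : Algebra.EssFiniteType ℂ C := (inferInstance : IsFF ℂ C).ess
  have h0 := psec2 K E C N 1 hE (by rw [IsFF.trdeg, Nat.cast_one]) hK x hx
    (fun _ : Fin 1 => t) htb BX (fun _ => False) f hf b hb
  have hsn : Fin.append (fun i => algebraMap E K (x i)) (fun _ : Fin 1 => algebraMap C K t) =
      zz K x t := by
    rw [Fin.append_right_eq_snoc]
    rfl
  rw [hsn] at h0
  have hglob : GlobalForm (N + 1) (trForm (zz K x t) ((f : K) * (b : K))) := by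
    refine ⟨trForm_pluri _ _, fun P hP => ?_⟩
    refine (h0 P hP).2 ?_
    rintro (⟨P', e, h, -⟩ | ⟨_, _, h, -⟩)
    · exact hBX P' h
    · exact h
  have h1 := hc _ hglob _ G hz hG D
  rw [← h1]
  refine Finset.sum_congr rfl fun σ _ => ?_
  unfold pullback jac'
  rw [hGv, map_mul]
  ring

/-- the Jacobian determinant in terms of a basis of the vector fields -/
theorem jac_lin {n : ℕ} {y : Fin n → Ω} (hy : IsTranscendenceBasis ℂ y)
    {D : Fin n → Derivation ℂ Ω Ω} (hD : ∀ i j, D i (y j) = if i = j then 1 else 0)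
    (D' : Fin n → Derivation ℂ Ω Ω) (z : Fin n → K) (σ : K →ₐ[ℂ] Ω) :
    jac' z D' σ = (Matrix.of fun i j => D' i (y j)).det * jac' z D σ := by
  classical
  unfold jac'
  rw [← Matrix.det_mul]
  congr 1
  ext i j
  rw [Matrix.mul_apply]
  simp only [Matrix.of_apply]
  exact der_expand_apply hy hD (D' i) _

/-- the Jacobian determinant of an embedding is not zero -/
theorem jac_ne' {n : ℕ} {y : Fin n → Ω} (hy : IsTranscendenceBasis ℂ y)
    (hΩ : Algebra.trdeg ℂ Ω = n)
    {D : Fin n → Derivation ℂ Ω Ω} (hD : ∀ i j, D i (y j) = if i = j then 1 else 0)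
    {z : Fin n → K} (hz : IsTranscendenceBasis ℂ z) (σ : K →ₐ[ℂ] Ω) : jac' z D σ ≠ 0 := by
  classical
  have hzi : AlgebraicIndependent ℂ (fun i => σ (z i)) := hz.1.map' (f := σ) σ.injective
  have hzb : IsTranscendenceBasis ℂ (fun i => σ (z i)) := by
    refine hzi.isTranscendenceBasis_of_lift_trdeg_le_of_finite ?_
    rw [hΩ]
    simp
  choose E hE using fun i : Fin n => Pool.Agent.W602.GT.exists_der _ hzb
    fun j => if i = j then (1 : Ω) else 0
  have h1 := jac_lin hy hD E z σ
  have h2 : jac' z E σ = 1 := by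
    unfold jac'
    have h3 : (Matrix.of fun i j => E i (σ (z j)) : Matrix (Fin n) (Fin n) Ω) = 1 := by
      ext i j
      rw [Matrix.of_apply, hE, Matrix.one_apply]
    rw [h3, Matrix.det_one]
  intro h3
  rw [h2, h3, mul_zero] at h1
  exact one_ne_zero h1

end

end Pool.Agent.K6.H85.PV
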